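import Mathlib
import Pool.Agent.Zk58.EK.Cv

/-!
Module CV1 of helper58: a measurable choice of free ground states.
-/

set_option autoImplicit false

namespace Pool.Agent.Zk58.EK

open Finset MeasureTheory ProbabilityTheory Filter

open scoped BigOperators ENNReal Topology NNReal

theorem argmax {ι Ω : Type} [MeasurableSpace Ω] (f : ι → Ω → ℝ) (hf : ∀ i, Measurable (f i))
    {P : Finset ι} (hP : P.Nonempty) : ∃ a : Ω → ι, (∀ ω, a ω ∈ P) ∧
      (∀ ω, ∀ b ∈ P, f b ω ≤ f (a ω) ω) ∧ ∀ b, MeasurableSet {ω | a ω = b} := by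
  classical
  induction hP using Finset.Nonempty.cons_induction with
  | singleton i =>
    refine ⟨fun _ => i, fun _ => mem_singleton_self i, fun ω b hb => ?_,
      fun b => MeasurableSet.const _⟩
    rw [mem_singleton.1 hb]
  | cons i s hi hs ih =>
    obtain ⟨a, h1, h2, h3⟩ := ih
    set E : Set Ω := {ω | f (a ω) ω < f i ω} with hE
    have hEm : MeasurableSet E := by
      have e : E = ⋃ b ∈ s, {ω | a ω = b} ∩ {ω | f b ω < f i ω} := by
        ext ω
        simp only [hE, Set.mem_setOf_eq, Set.mem_iUnion, Set.mem_inter_iff, exists_prop]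
        constructor
        · intro h
          exact ⟨a ω, h1 ω, rfl, h⟩
        · rintro ⟨b, _, rfl, h⟩
          exact h
      rw [e]
      exact Finset.measurableSet_biUnion s fun b _ =>
        (h3 b).inter (measurableSet_lt (hf b) (hf i))
    refine ⟨fun ω => if ω ∈ E then i else a ω, fun ω => ?_, fun ω b hb => ?_, fun b => ?_⟩
    · dsimp only
      split_ifs
      · exact mem_cons_self i s
      · exact mem_cons_of_mem (h1 ω)
    · dsimp only
      rw [mem_cons] at hb
      split_ifs with h
      · rcases hb with rfl | hb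
        · exact le_rfl
        · exact (h2 ω b hb).trans (le_of_lt h)
      · rcases hb with rfl | hb
        · exact not_lt.1 h
        · exact h2 ω b hb
    · have e : {ω | (if ω ∈ E then i else a ω) = b} =
          (E ∩ {_ω | i = b}) ∪ (Eᶜ ∩ {ω | a ω = b}) := by
        ext ω
        by_cases h : ω ∈ E <;> simp [h]
      rw [e]
      exact (hEm.inter (MeasurableSet.const _)).union (hEm.compl.inter (h3 b))

theorem t_CV1 : S_CV1 := by
  intro d S _ ψ hψ
  classical
  have h : ∀ n : ℕ, ∃ a : (Bond d → S) → Finset (Site d),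
      (∀ X, a X ∈ (cube (0 : Site d) n).powerset) ∧
      (∀ X, ∀ b ∈ (cube (0 : Site d) n).powerset,
        W (fun e => ψ (X e)) (cube (0 : Site d) n) (sp b) ≤
          W (fun e => ψ (X e)) (cube (0 : Site d) n) (sp (a X))) ∧
      ∀ b, MeasurableSet {X | a X = b} := by
    intro n
    refine argmax (fun (A : Finset (Site d)) (X : Bond d → S) =>
      W (fun e => ψ (X e)) (cube (0 : Site d) n) (sp A)) (fun A => ?_) ⟨∅, by simp⟩
    unfold W
    exact Finset.measurable_sum _ fun e _ => (hψ.comp (measurable_pi_apply e)).mul_const _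
  choose a h1 h2 h3 using h
  refine ⟨fun n e => ⋃ A ∈ (cube (0 : Site d) n).powerset.filter
      (fun A => sp A e.1 * sp A (tip e) = 1), {X | a n X = A}, fun n e => ?_,
    fun X n => ⟨sp (a n X), ⟨sp_val _, fun τ hτ => ?_⟩, fun e he => ?_⟩⟩
  · exact Finset.measurableSet_biUnion _ fun A _ => h3 n A
  · have h4 : W (fun e => ψ (X e)) (cube (0 : Site d) n) τ ≤
        G (fun e => ψ (X e)) (cube (0 : Site d) n) := le_G hτ
    have h5 : G (fun e => ψ (X e)) (cube (0 : Site d) n) ≤
        W (fun e => ψ (X e)) (cube (0 : Site d) n) (sp (a n X)) := by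
      unfold G
      exact sup'_le _ _ (h2 n X)
    have h6 := h4.trans h5
    unfold W at h6
    rw [zero_mul, add_zero]
    exact h6
  · simp only [Set.mem_iUnion, mem_filter, Set.mem_setOf_eq, exists_prop]
    constructor
    · intro h
      exact ⟨a n X, ⟨h1 n X, h⟩, rfl⟩
    · rintro ⟨A, ⟨_, h⟩, rfl⟩
      exact h

end Pool.Agent.Zk58.EK
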