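import Pool.Agent.Zk86.EKm.FUS

/-!
# Splitting off a small Gaussian component changes every event little
-/

set_option autoImplicit false

open MeasureTheory ProbabilityTheory Filter
open scoped NNReal ENNReal Topology

namespace Pool.Agent.Zk86.EKm

open Pool.Agent.Zk58.EK

/-- the small variance -/
noncomputable def wj (v : ℝ≥0) (j : ℕ) : ℝ≥0 := v / (j + 2)

/-- the rest -/
noncomputable def vj (v : ℝ≥0) (j : ℕ) : ℝ≥0 := v * ((j + 1) / (j + 2))

lemma wj_add (v : ℝ≥0) (j : ℕ) : wj v j + vj v j = v := by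
  unfold wj vj
  have : ((j : ℝ≥0) + 2) ≠ 0 := by positivity
  field_simp
  ring

lemma wj_ne {v : ℝ≥0} (hv : v ≠ 0) (j : ℕ) : wj v j ≠ 0 := by
  unfold wj
  positivity

lemma wj_tendsto (v : ℝ≥0) : Tendsto (fun j => ((wj v j : ℝ≥0) : ℝ)) atTop (𝓝 0) := by
  have h1 : Tendsto (fun j : ℕ => (v : ℝ) / ((j : ℝ) + 2)) atTop (𝓝 0) :=
    Tendsto.div_atTop tendsto_const_nhds
      (tendsto_atTop_add_const_right _ _ tendsto_natCast_atTop_atTop)
  refine h1.congr fun j => ?_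
  unfold wj
  push_cast
  rfl

variable {d : ℕ} {S : Type} [MeasurableSpace S]

/-- the measures -/
noncomputable def Pj (d : ℕ) (ν : Measure S) (v : ℝ≥0) (j : ℕ) : Measure (Bond d → ℝ × (ℝ × S)) :=
  PX d (gm (wj v j) (gm (vj v j) ν))

instance (ν : Measure S) [IsProbabilityMeasure ν] (v : ℝ≥0) (j : ℕ) : IsProbabilityMeasure (Pj d ν v j) := by
  unfold Pj PX
  infer_instance

lemma pp_mp (ν : Measure S) [IsProbabilityMeasure ν] (v : ℝ≥0) (j : ℕ) :
    MeasurePreserving (pp (d := d) (S := S)) (Pj d ν v j) (PX d (gm v ν)) := by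
  have h := t_FUS d S ν (wj v j) (vj v j)
  rw [wj_add] at h
  exact h

/-- the events which are close to events of the second components -/
def GG (d : ℕ) (ν : Measure S) (v : ℝ≥0) (U : Set (Bond d → ℝ × S)) : Prop :=
  MeasurableSet U ∧ ∀ δ : ℝ, 0 < δ → ∃ J : ℕ, ∀ j ≥ J, ∃ V : Set (Bond d → ℝ × S), MeasurableSet V ∧
    (Pj d ν v j).real {X | ¬ (pp X ∈ U ↔ yy X ∈ V)} ≤ δ

lemma GG_compl {ν : Measure S} {v : ℝ≥0} {U : Set (Bond d → ℝ × S)} (h : GG d ν v U) : GG d ν v Uᶜ := by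
  refine ⟨h.1.compl, fun δ hδ => ?_⟩
  obtain ⟨J, hJ⟩ := h.2 δ hδ
  refine ⟨J, fun j hj => ?_⟩
  obtain ⟨V, hV, hV2⟩ := hJ j hj
  refine ⟨Vᶜ, hV.compl, ?_⟩
  have : {X : Bond d → ℝ × (ℝ × S) | ¬ (pp X ∈ Uᶜ ↔ yy X ∈ Vᶜ)} = {X | ¬ (pp X ∈ U ↔ yy X ∈ V)} := by
    ext X
    simp only [Set.mem_ofPred_eq, Set.mem_compl_iff, not_iff_not]
  rw [this]
  exact hV2

lemma GG_iUnion {ν : Measure S} [IsProbabilityMeasure ν] {v : ℝ≥0} {U : ℕ → Set (Bond d → ℝ × S)}
    (h : ∀ k, GG d ν v (U k)) : GG d ν v (⋃ k, U k) := by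
  have hm : MeasurableSet (⋃ k, U k) := MeasurableSet.iUnion fun k => (h k).1
  have hacc : ∀ K : ℕ, MeasurableSet (Set.accumulate U K) := fun K =>
    MeasurableSet.biUnion (Set.to_countable _) fun k _ => (h k).1
  refine ⟨hm, fun δ hδ => ?_⟩
  -- the tail
  have hP : IsProbabilityMeasure (PX d (gm v ν)) := by
    unfold PX
    infer_instance
  obtain ⟨K, hK⟩ : ∃ K : ℕ, (PX d (gm v ν)).real ((⋃ k, U k) \ Set.accumulate U K) ≤ δ / 2 := by
    have h1 : Tendsto (fun K => (PX d (gm v ν)).real (Set.accumulate U K)) atTop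
        (𝓝 ((PX d (gm v ν)).real (⋃ k, U k))) := by
      have := tendsto_measure_iUnion_accumulate (μ := PX d (gm v ν)) (f := U)
      exact (ENNReal.tendsto_toReal (measure_ne_top _ _)).comp this
    have h2 := h1.eventually (lt_mem_nhds (show (PX d (gm v ν)).real (⋃ k, U k) - δ / 2 <
      (PX d (gm v ν)).real (⋃ k, U k) by linarith))
    obtain ⟨K, hK⟩ := h2.exists
    refine ⟨K, ?_⟩
    have hsub : Set.accumulate U K ⊆ ⋃ k, U k := Set.accumulate_subset_iUnion K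
    rw [measureReal_sdiff hsub (hacc K)]
    linarith
  choose J hJ using fun k => (h k).2 (δ / (2 * (K + 1))) (by positivity)
  refine ⟨(Finset.range (K + 1)).sup J, fun j hj => ?_⟩
  have hj' : ∀ k ∈ Finset.range (K + 1), J k ≤ j := fun k hk => (Finset.le_sup (f := J) hk).trans hj
  choose! V hV hV2 using fun k (hk : k ∈ Finset.range (K + 1)) => hJ k j (hj' k hk)
  refine ⟨⋃ k ∈ Finset.range (K + 1), V k, Finset.measurableSet_biUnion _ hV, ?_⟩
  have hsub : {X : Bond d → ℝ × (ℝ × S) | ¬ (pp X ∈ ⋃ k, U k ↔ yy X ∈ ⋃ k ∈ Finset.range (K + 1), V k)} ⊆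
      pp ⁻¹' ((⋃ k, U k) \ Set.accumulate U K) ∪
        ⋃ k ∈ Finset.range (K + 1), {X | ¬ (pp X ∈ U k ↔ yy X ∈ V k)} := by
    intro X hX
    by_contra hcon
    simp only [Set.mem_union, Set.mem_preimage, Set.mem_sdiff, not_or, Set.mem_iUnion, Set.mem_ofPred_eq,
      not_exists, not_not, not_and, Set.mem_accumulate] at hcon hX
    obtain ⟨h1, h2⟩ := hcon
    apply hX
    constructor
    · intro h3
      by_contra h4
      refine h1 h3 fun i hi hi2 => ?_
      have hi' : i ∈ Finset.range (K + 1) := Finset.mem_range.2 (by omega)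
      exact h4 ⟨i, hi', (h2 i hi').1 hi2⟩
    · rintro ⟨k, hk, hk2⟩
      exact ⟨k, (h2 k hk).2 hk2⟩
  refine (measureReal_mono hsub).trans ((measureReal_union_le _ _).trans ?_)
  have e1 : (Pj d ν v j).real (pp ⁻¹' ((⋃ k, U k) \ Set.accumulate U K)) =
      (PX d (gm v ν)).real ((⋃ k, U k) \ Set.accumulate U K) := by
    have := (pp_mp (d := d) ν v j).measure_preimage
      ((hm.diff (hacc K)).nullMeasurableSet)
    rw [measureReal_def, measureReal_def, this]
  have e2 : (Pj d ν v j).real (⋃ k ∈ Finset.range (K + 1), {X | ¬ (pp X ∈ U k ↔ yy X ∈ V k)}) ≤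
      ∑ k ∈ Finset.range (K + 1), δ / (2 * (K + 1)) :=
    (measureReal_biUnion_finset_le _ _).trans (Finset.sum_le_sum fun k hk => hV2 k hk)
  rw [Finset.sum_const, Finset.card_range, nsmul_eq_mul] at e2
  have e3 : ((K + 1 : ℕ) : ℝ) * (δ / (2 * (K + 1))) = δ / 2 := by
    push_cast
    field_simp
  rw [e1]
  linarith

/-- the sigma-algebra -/
@[instance_reducible]
def mG (d : ℕ) (ν : Measure S) [IsProbabilityMeasure ν] (v : ℝ≥0) : MeasurableSpace (Bond d → ℝ × S) where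
  MeasurableSet' U := GG d ν v U
  measurableSet_empty := ⟨MeasurableSet.empty, fun δ hδ => ⟨0, fun j _ => ⟨∅, MeasurableSet.empty, by
    simp [hδ.le]⟩⟩⟩
  measurableSet_compl _ h := GG_compl h
  measurableSet_iUnion _ h := GG_iUnion h

lemma chain (ν : Measure S) [IsProbabilityMeasure ν] (v : ℝ≥0) (e : Bond d) {T : Set (ℝ × (ℝ × S))}
    (hT : MeasurableSet T) (j : ℕ) :
    (Pj d ν v j).real {X | X e ∈ T} = (gm (wj v j) (gm (vj v j) ν)).real T := by
  have h := (measurePreserving_eval_infinitePi (fun _ : Bond d => gm (wj v j) (gm (vj v j) ν)) e).measure_preimage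
    hT.nullMeasurableSet
  rw [measureReal_def, measureReal_def, ← h]
  rfl

lemma chain2 (ν : Measure S) [IsProbabilityMeasure ν] (v : ℝ≥0) (e : Bond d) {T : Set (ℝ × S)}
    (hT : MeasurableSet T) :
    (PX d (gm v ν)).real {X | X e ∈ T} = (gm v ν).real T := by
  have h := (measurePreserving_eval_infinitePi (fun _ : Bond d => gm v ν) e).measure_preimage
    hT.nullMeasurableSet
  rw [measureReal_def, measureReal_def, ← h]
  rfl

/-- Chebyshev -/
lemma cheb (w : ℝ≥0) {θ : ℝ} (hθ : 0 < θ) :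
    (gaussianReal 0 w).real {x | θ ≤ |x|} ≤ w / θ ^ 2 := by
  have h := meas_ge_le_variance_div_sq (μ := gaussianReal 0 w) (memLp_id_gaussianReal 2) hθ
  have e1 : ∫ x, (id x : ℝ) ∂(gaussianReal 0 w) = 0 := integral_id_gaussianReal
  rw [variance_id_gaussianReal] at h
  rw [e1] at h
  simp only [id, sub_zero] at h
  rw [measureReal_def]
  exact ENNReal.toReal_le_of_le_ofReal (by positivity) h

lemma GG_fst {ν : Measure S} [IsProbabilityMeasure ν] {v : ℝ≥0} (hv : v ≠ 0) (e : Bond d) (a : ℝ) :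
    GG d ν v {Z | (Z e).1 ≤ a} := by
  have hm : MeasurableSet {Z : Bond d → ℝ × S | (Z e).1 ≤ a} :=
    measurableSet_le (measurable_pi_apply e).fst measurable_const
  refine ⟨hm, fun δ hδ => ?_⟩
  have := nullSingletonClass_gaussianReal (μ := 0) hv
  obtain ⟨θ, hθ, hθ2⟩ : ∃ θ : ℝ, 0 < θ ∧ (gaussianReal 0 v).real (Set.Icc (a - θ) (a + θ)) ≤ δ / 2 := by
    have h1 := tendsto_measure_Icc_nhdsWithin_right' (gaussianReal 0 v) a
    rw [measure_singleton] at h1
    have h2 := h1.eventually (gt_mem_nhds (show (0 : ℝ≥0∞) < ENNReal.ofReal (δ / 2) by simp [hδ]))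
    obtain ⟨θ, h3, h4⟩ := (h2.and self_mem_nhdsWithin).exists
    refine ⟨θ, h4, ?_⟩
    rw [measureReal_def]
    exact ENNReal.toReal_le_of_le_ofReal (by positivity) h3.le
  have h5 : Tendsto (fun j => ((wj v j : ℝ≥0) : ℝ) / θ ^ 2) atTop (𝓝 (0 / θ ^ 2)) :=
    (wj_tendsto v).div_const _
  rw [zero_div] at h5
  obtain ⟨J, hJ⟩ := eventually_atTop.1 (h5.eventually (gt_mem_nhds (show (0 : ℝ) < δ / 2 by linarith)))
  refine ⟨J, fun j hj => ⟨_, hm, ?_⟩⟩
  have hsub : {X : Bond d → ℝ × (ℝ × S) | ¬ (pp X ∈ {Z : Bond d → ℝ × S | (Z e).1 ≤ a} ↔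
      yy X ∈ {Z : Bond d → ℝ × S | (Z e).1 ≤ a})} ⊆
      {X | X e ∈ {x : ℝ × (ℝ × S) | θ ≤ |x.1|}} ∪
        pp ⁻¹' {Z : Bond d → ℝ × S | Z e ∈ {z : ℝ × S | z.1 ∈ Set.Icc (a - θ) (a + θ)}} := by
    intro X hX
    by_contra hcon
    simp only [Set.mem_union, Set.mem_preimage, Set.mem_ofPred_eq, not_or, Set.mem_Icc, not_le, pp, yy] at hcon hX
    obtain ⟨h1, h2⟩ := hcon
    rw [abs_lt] at h1
    apply hX
    constructor
    · intro h3
      by_contra h4
      push Not at h4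
      exact h2 ⟨by linarith [h1.1], by linarith⟩
    · intro h3
      by_contra h4
      push Not at h4
      exact h2 ⟨by linarith, by linarith [h1.2]⟩
  refine (measureReal_mono hsub).trans ((measureReal_union_le _ _).trans ?_)
  have hT1 : MeasurableSet {x : ℝ × (ℝ × S) | θ ≤ |x.1|} :=
    measurableSet_le measurable_const (measurable_fst.abs)
  have hT2 : MeasurableSet {z : ℝ × S | z.1 ∈ Set.Icc (a - θ) (a + θ)} := measurable_fst measurableSet_Icc
  have hT3 : MeasurableSet {Z : Bond d → ℝ × S | Z e ∈ {z : ℝ × S | z.1 ∈ Set.Icc (a - θ) (a + θ)}} :=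
    measurable_pi_apply e hT2
  have e1 := (pp_mp (d := d) ν v j).measure_preimage hT3.nullMeasurableSet
  have e2 : (Pj d ν v j).real (pp ⁻¹' {Z : Bond d → ℝ × S | Z e ∈ {z : ℝ × S | z.1 ∈ Set.Icc (a - θ) (a + θ)}}) =
      (gm v ν).real {z : ℝ × S | z.1 ∈ Set.Icc (a - θ) (a + θ)} := by
    rw [← chain2 ν v e hT2, measureReal_def, measureReal_def, e1]
  have e3 : (gm v ν).real {z : ℝ × S | z.1 ∈ Set.Icc (a - θ) (a + θ)} =
      (gaussianReal 0 v).real (Set.Icc (a - θ) (a + θ)) := by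
    have := (measurePreserving_fst (μ := gaussianReal 0 v) (ν := ν)).measure_preimage
      (measurableSet_Icc (a := a - θ) (b := a + θ)).nullMeasurableSet
    rw [measureReal_def, measureReal_def, ← this]
    rfl
  have e4 : (Pj d ν v j).real {X | X e ∈ {x : ℝ × (ℝ × S) | θ ≤ |x.1|}} =
      (gaussianReal 0 (wj v j)).real {x | θ ≤ |x|} := by
    rw [chain ν v e hT1 j]
    have hT4 : MeasurableSet {x : ℝ | θ ≤ |x|} := measurableSet_le measurable_const measurable_id.abs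
    have := (measurePreserving_fst (μ := gaussianReal 0 (wj v j)) (ν := gm (vj v j) ν)).measure_preimage
      hT4.nullMeasurableSet
    rw [measureReal_def, measureReal_def, ← this]
    rfl
  rw [e2, e3, e4]
  have := cheb (wj v j) hθ
  linarith [hJ j hj]

lemma GG_snd {ν : Measure S} [IsProbabilityMeasure ν] {v : ℝ≥0} (e : Bond d) {C : Set S}
    (hC : MeasurableSet C) : GG d ν v {Z | (Z e).2 ∈ C} := by
  have hm : MeasurableSet {Z : Bond d → ℝ × S | (Z e).2 ∈ C} := (measurable_pi_apply e).snd hC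
  refine ⟨hm, fun δ hδ => ⟨0, fun j _ => ⟨_, hm, ?_⟩⟩⟩
  have : {X : Bond d → ℝ × (ℝ × S) | ¬ (pp X ∈ {Z : Bond d → ℝ × S | (Z e).2 ∈ C} ↔
      yy X ∈ {Z : Bond d → ℝ × S | (Z e).2 ∈ C})} = ∅ := by
    ext X
    simp only [Set.mem_ofPred_eq, pp, yy, not_true_eq_false, Set.mem_empty_iff_false, iff_self]
  rw [this]
  simp [hδ.le]

lemma GG_all {ν : Measure S} [IsProbabilityMeasure ν] {v : ℝ≥0} (hv : v ≠ 0) {U : Set (Bond d → ℝ × S)}
    (hU : MeasurableSet U) : GG d ν v U := by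
  have h1 : @Measurable _ _ (mG d ν v) MeasurableSpace.pi (id : (Bond d → ℝ × S) → (Bond d → ℝ × S)) := by
    refine @measurable_pi_lambda _ _ _ (mG d ν v) _ _ fun e => ?_
    have h2 : @Measurable _ _ (mG d ν v) _ (fun X : Bond d → ℝ × S => (X e).1) :=
      @measurable_of_Iic ℝ (Bond d → ℝ × S) _ _ _ (mG d ν v) _ _ _ _ fun a => GG_fst hv e a
    have h3 : @Measurable _ _ (mG d ν v) _ (fun X : Bond d → ℝ × S => (X e).2) :=
      fun C hC => GG_snd e hC
    exact @Measurable.prodMk _ (mG d ν v) _ _ _ _ _ _ h2 h3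
  exact h1 hU

/-- The statement `S_SPL`. -/
theorem t_SPL : S_SPL := by
  intro d S _ ν _ v hv U hU δ hδ
  choose J hJ using fun i => (GG_all (ν := ν) hv (hU i)).2 δ hδ
  obtain ⟨j, hj⟩ : ∃ j, ∀ i, J i ≤ j := ⟨J 0 + J 1, fun i => by
    fin_cases i <;> simp⟩
  choose V hV using fun i => hJ i j (hj i)
  exact ⟨wj v j, vj v j, wj_ne hv j, wj_add v j, V, hV⟩

end Pool.Agent.Zk86.EKm
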