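import Pool.Agent.Zk58.EK.Sel

/-!
# The fusion of two Gaussian components preserves the measures
-/

set_option autoImplicit false

open MeasureTheory ProbabilityTheory Filter
open scoped NNReal ENNReal Topology

namespace Pool.Agent.Zk86.EKm

open Pool.Agent.Zk58.EK

/-- the fusion at one bond -/
def p1 {S : Type} (x : ℝ × (ℝ × S)) : ℝ × S := (x.1 + x.2.1, x.2.2)

lemma p1_meas {S : Type} [MeasurableSpace S] : Measurable (p1 (S := S)) := by
  unfold p1
  fun_prop

lemma p1_map {S : Type} [MeasurableSpace S] (ν : Measure S) [IsProbabilityMeasure ν] (w v' : ℝ≥0) :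
    (gm w (gm v' ν)).map p1 = gm (w + v') ν := by
  unfold gm
  have h1 : MeasurePreserving (MeasurableEquiv.prodAssoc : (ℝ × ℝ) × S ≃ᵐ ℝ × (ℝ × S))
      (((gaussianReal 0 w).prod (gaussianReal 0 v')).prod ν)
      ((gaussianReal 0 w).prod ((gaussianReal 0 v').prod ν)) :=
    measurePreserving_prodAssoc _ _ _
  rw [← h1.map_eq, Measure.map_map p1_meas MeasurableEquiv.prodAssoc.measurable]
  have h2 : (p1 ∘ (MeasurableEquiv.prodAssoc : (ℝ × ℝ) × S ≃ᵐ ℝ × (ℝ × S))) =
      Prod.map (fun x : ℝ × ℝ => x.1 + x.2) (id : S → S) := by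
    funext x
    rfl
  rw [h2, ← Measure.map_prod_map _ _ (by fun_prop) measurable_id, Measure.map_id]
  congr 1
  have h3 := gaussianReal_conv_gaussianReal (m₁ := 0) (m₂ := 0) (v₁ := w) (v₂ := v')
  rw [add_zero] at h3
  exact h3

/-- The statement `S_FUS`. -/
theorem t_FUS : S_FUS := by
  intro d S _ ν _ w v'
  have h := Measure.infinitePi_map_pi (μ := fun _ : Bond d => gm w (gm v' ν)) (f := fun _ => p1)
    (fun _ => p1_meas)
  simp only [p1_map] at h
  refine ⟨?_, h⟩
  exact measurable_pi_lambda _ fun e => p1_meas.comp (measurable_pi_apply e)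

end Pool.Agent.Zk86.EKm
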